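import Pool.Agent.V11321.BC.Lim

/-!
Assembly: the law, the local limit theorem and the mean numbers of clusters.
-/

set_option autoImplicit false

namespace Pool.Agent.V11321.BC

open MeasureTheory Filter Topology H731B

/-- closed form of the probability of exactly `k` -/
noncomputable def pr (n k : ℕ) : ℝ :=
  ((2 * k).choose k : ℝ) * (3 * k * (2 * (n : ℝ)^2 + 3 * (k : ℝ)^3 - k)) /
    (2 * (2 * k - 1) * (k + 1) * (4 * (n : ℝ)^2 - (k : ℝ)^2)) *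
    (((n + k - 1).factorial : ℝ) * (2 * n - k).factorial) /
      (((n - k).factorial : ℝ) * (2 * n + k - 1).factorial)

theorem law_pr {n k : ℕ} (h1 : 1 ≤ k) (hk : k ≤ n) :
    (perc n).real {ω | (bcl n ω).ncard = k} = pr n k := by
  rw [law_eq h1 hk, diff_tl h1 hk, hc_form h1 hk]
  unfold pr
  have hk' : (k : ℝ) ≤ n := by exact_mod_cast hk
  have hk1 : (1 : ℝ) ≤ k := by exact_mod_cast h1
  have h2 : (0 : ℝ) < 4 * (n : ℝ)^2 - (k : ℝ)^2 := by nlinarith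
  have h3 : (2 * (k : ℝ) - 1) ≠ 0 := by linarith
  obtain ⟨D, hD⟩ : ∃ D : ℝ, D = 4 * (n : ℝ)^2 - (k : ℝ)^2 := ⟨_, rfl⟩
  rw [← hD] at h2 ⊢
  have h4 : D ≠ 0 := h2.ne'
  have h5 : (k : ℝ) + 1 ≠ 0 := by positivity
  have h6 : ((n - k).factorial : ℝ) ≠ 0 := by positivity
  have h7 : ((2 * n + k - 1).factorial : ℝ) ≠ 0 := by positivity
  field_simp

theorem mean_k {n k : ℕ} (h1 : 1 ≤ k) (hk : k ≤ n) :
    ∫ ω, (num n {k} ω : ℝ) ∂(perc n) = n * pr n k / k := by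
  classical
  have hn : 1 ≤ n := h1.trans hk
  rw [mean_num hn, int_wt hn, ← law_pr h1 hk, mul_div_assoc]
  congr 1
  rw [Finset.sum_eq_single k]
  · unfold wt
    rw [if_pos (Set.mem_singleton k)]
    ring
  · intro b _ hb
    unfold wt
    rw [if_neg (fun h => hb (Set.mem_singleton_iff.1 h)), mul_zero]
  · intro h
    exact absurd (Finset.mem_Icc.2 ⟨h1, hk⟩) h

theorem mean_loc (x : ℝ) (hx : 0 < x) (k : ℕ → ℕ)
    (hk : Tendsto (fun n : ℕ => (k n : ℝ) / (n : ℝ)^((2:ℝ)/3)) atTop (𝓝 x)) :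
    Tendsto (fun n : ℕ => (n : ℝ)^((2:ℝ)/3) * ∫ ω, (num n {k n} ω : ℝ) ∂(perc n)) atTop
      (𝓝 (3 / (8 * Real.sqrt Real.pi) * (2 + 3 * x^3) / (x^2 * Real.sqrt x) *
        Real.exp (-(x^3 / 4)))) := by
  have h1 := (loc x hx k hk).div hk hx.ne'
  have e : 3 / (8 * Real.sqrt Real.pi) * (2 + 3 * x^3) / (x * Real.sqrt x) *
        Real.exp (-(x^3 / 4)) / x = 3 / (8 * Real.sqrt Real.pi) * (2 + 3 * x^3) /
          (x^2 * Real.sqrt x) * Real.exp (-(x^3 / 4)) := by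
    have h3 : 0 < Real.sqrt Real.pi := Real.sqrt_pos.2 Real.pi_pos
    have h4 : 0 < Real.sqrt x := Real.sqrt_pos.2 hx
    field_simp
  rw [e] at h1
  refine h1.congr' ?_
  have hr : Tendsto (fun n : ℕ => (n : ℝ)^((2:ℝ)/3)) atTop atTop := F2.rpow_top (by norm_num)
  have hkR : Tendsto (fun n : ℕ => (k n : ℝ)) atTop atTop := by
    have h := hk.pos_mul_atTop hx hr
    refine h.congr' ?_
    filter_upwards [eventually_ge_atTop 1] with n hn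
    have hn0 : (0:ℝ) < n := by exact_mod_cast hn
    have : (n : ℝ)^((2:ℝ)/3) ≠ 0 := (Real.rpow_pos_of_pos hn0 _).ne'
    field_simp
  have hkN : Tendsto k atTop atTop := tendsto_natCast_atTop_iff.1 hkR
  filter_upwards [eventually_ge_atTop 1, F2.ev_le x k hk, hkN.eventually_ge_atTop 1]
    with n hn hkn' hk1
  have hn0 : (0:ℝ) < n := by exact_mod_cast hn
  have hr0 : (n : ℝ)^((2:ℝ)/3) ≠ 0 := (Real.rpow_pos_of_pos hn0 _).ne'
  have hk0 : (0:ℝ) < (k n : ℝ) := by exact_mod_cast hk1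
  rw [mean_k hk1 hkn', ← law_pr hk1 hkn']
  simp only [Pi.div_apply]
  field_simp

/-- **the new parts** -/
theorem main :
    (∀ n k : ℕ, 1 ≤ k → k ≤ n → (perc n).real {ω | (bcl n ω).ncard = k} = pr n k) ∧
    (∀ x : ℝ, 0 < x → ∀ k : ℕ → ℕ,
      Tendsto (fun n : ℕ => (k n : ℝ) / (n : ℝ)^((2:ℝ)/3)) atTop (𝓝 x) →
      Tendsto (fun n : ℕ => (n : ℝ) * (perc n).real {ω | (bcl n ω).ncard = k n}) atTop
        (𝓝 (3 / (8 * Real.sqrt Real.pi) * (2 + 3 * x^3) / (x * Real.sqrt x) *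
          Real.exp (-(x^3 / 4))))) ∧
    (∀ n k : ℕ, 1 ≤ k → k ≤ n → ∫ ω, (num n {k} ω : ℝ) ∂(perc n) = n * pr n k / k) ∧
    (∀ x : ℝ, 0 < x → ∀ k : ℕ → ℕ,
      Tendsto (fun n : ℕ => (k n : ℝ) / (n : ℝ)^((2:ℝ)/3)) atTop (𝓝 x) →
      Tendsto (fun n : ℕ => (n : ℝ)^((2:ℝ)/3) * ∫ ω, (num n {k n} ω : ℝ) ∂(perc n)) atTop
        (𝓝 (3 / (8 * Real.sqrt Real.pi) * (2 + 3 * x^3) / (x^2 * Real.sqrt x) *
          Real.exp (-(x^3 / 4))))) ∧
    (∀ x : ℝ, 0 < x → Tendsto (fun n : ℕ =>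
        ∫ ω, (num n {k : ℕ | x * (n : ℝ)^((2:ℝ)/3) ≤ (k : ℝ)} ω : ℝ) ∂(perc n)) atTop
      (𝓝 (Real.exp (-(x^3 / 4)) / (2 * Real.sqrt Real.pi * (x * Real.sqrt x)) +
        3 / (4 * Real.sqrt Real.pi) *
          ∫ y in Set.Ioi x, Real.sqrt y * Real.exp (-(y^3 / 4))))) :=
  ⟨fun _ _ h1 hk => law_pr h1 hk, loc, fun _ _ h1 hk => mean_k h1 hk, mean_loc,
    fun x hx => by rw [← lim_form hx]; exact mean_lim hx⟩

end Pool.Agent.V11321.BC
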