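import Pool.Agent.H731R6.Bc.Fin
import Pool.Agent.H731R6.Bc.HP1

/-!
The mean number of the boundary clusters of the half-infinite cylinder with a given number of
boundary vertices: `E #{clusters with k boundary vertices} = n P(K = k) / k`.
-/

set_option autoImplicit false

namespace Pool.Agent.V11321.BC

open MeasureTheory Filter Topology H731B

/-- the boundary vertices joined to `(a, 0)` by an open path -/
def cla (n : ℕ) (ω : Conf n) (a : ZMod (2 * n)) : Set (ZMod (2 * n)) :=
  {b | Relation.EqvGen (OpenAdj n ω) (a, 0) (b, 0)}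

/-- the number of the boundary clusters whose number of boundary vertices is in `S` -/
noncomputable def num (n : ℕ) (S : Set ℕ) (ω : Conf n) : ℕ :=
  {C : Set (ZMod (2 * n)) | ∃ a : ZMod (2 * n), Even a.val ∧ C = cla n ω a ∧ C.ncard ∈ S}.ncard

/-- shift of a configuration -/
def sh (n : ℕ) (a : ZMod (2 * n)) (ω : Conf n) : Conf n := fun p => ω (p.1 + a, p.2)

theorem even_add {n : ℕ} (hn : 1 ≤ n) {a : ZMod (2 * n)} (ha : Even a.val) (c : ZMod (2 * n))
    (t : ℕ) : Even ((c + a).val + t) ↔ Even (c.val + t) := by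
  haveI : NeZero (2 * n) := ⟨by omega⟩
  have h : (c + a).val % 2 = (c.val + a.val) % 2 := by
    rw [ZMod.val_add]
    exact Nat.mod_mul_right_mod _ 2 n
  rw [Nat.even_iff] at ha
  rw [Nat.even_iff, Nat.even_iff]
  omega

theorem adj_sh {n : ℕ} (hn : 1 ≤ n) {a : ZMod (2 * n)} (ha : Even a.val) (ω : Conf n)
    {p r : ZMod (2 * n) × ℕ} (h : OpenAdj n (sh n a ω) p r) :
    OpenAdj n ω (p.1 + a, p.2) (r.1 + a, r.2) := by
  obtain ⟨c, t, h1, h2⟩ := h
  refine ⟨c + a, t, h1, ?_⟩
  rcases h2 with ⟨h3, rfl, rfl⟩ | ⟨h3, rfl, rfl⟩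
  · exact Or.inl ⟨(even_add hn ha c t).2 h3, rfl, by simp [add_right_comm]⟩
  · exact Or.inr ⟨fun h => h3 ((even_add hn ha c t).1 h), by simp [add_right_comm], rfl⟩

theorem adj_sh' {n : ℕ} (hn : 1 ≤ n) {a : ZMod (2 * n)} (ha : Even a.val) (ω : Conf n)
    {p r : ZMod (2 * n) × ℕ} (h : OpenAdj n ω p r) :
    OpenAdj n (sh n a ω) (p.1 - a, p.2) (r.1 - a, r.2) := by
  obtain ⟨c, t, h1, h2⟩ := h
  have h4 : Even (c.val + t) ↔ Even ((c - a).val + t) := by
    have := even_add hn ha (c - a) t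
    rwa [sub_add_cancel] at this
  refine ⟨c - a, t, by simpa [sh] using h1, ?_⟩
  rcases h2 with ⟨h3, rfl, rfl⟩ | ⟨h3, rfl, rfl⟩
  · exact Or.inl ⟨h4.1 h3, rfl, by simp [sub_add_eq_add_sub]⟩
  · exact Or.inr ⟨fun h => h3 (h4.2 h), by simp [sub_add_eq_add_sub], rfl⟩

theorem eqv_map {α β : Type*} {r : α → α → Prop} {s : β → β → Prop} (f : α → β)
    (h : ∀ a b, r a b → s (f a) (f b)) {a b : α} (hab : Relation.EqvGen r a b) :
    Relation.EqvGen s (f a) (f b) := by
  induction hab with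
  | rel a b hab => exact Relation.EqvGen.rel _ _ (h _ _ hab)
  | refl a => exact Relation.EqvGen.refl _
  | symm a b _ ih => exact Relation.EqvGen.symm _ _ ih
  | trans a b c _ _ ih1 ih2 => exact Relation.EqvGen.trans _ _ _ ih1 ih2

theorem cla_eq {n : ℕ} (hn : 1 ≤ n) {a : ZMod (2 * n)} (ha : Even a.val) (ω : Conf n) :
    cla n ω a = (fun b => b + a) '' (bcl n (sh n a ω)) := by
  ext b
  constructor
  · intro h
    refine ⟨b - a, ?_, by simp⟩
    have h1 := eqv_map (fun p : ZMod (2 * n) × ℕ => (p.1 - a, p.2)) (fun p r h => adj_sh' hn ha ω h) h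
    simpa [bcl] using h1
  · rintro ⟨c, hc, rfl⟩
    have h1 := eqv_map (fun p : ZMod (2 * n) × ℕ => (p.1 + a, p.2)) (fun p r h => adj_sh hn ha ω h) hc
    simpa [cla] using h1

theorem ncard_cla {n : ℕ} (hn : 1 ≤ n) {a : ZMod (2 * n)} (ha : Even a.val) (ω : Conf n) :
    (cla n ω a).ncard = (bcl n (sh n a ω)).ncard := by
  rw [cla_eq hn ha]
  exact Set.ncard_image_of_injective _ (add_left_injective a)

theorem map_sh (n : ℕ) (hn : 1 ≤ n) (a : ZMod (2 * n)) : (perc n).map (sh n a) = perc n := by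
  haveI : NeZero (2 * n) := ⟨by omega⟩
  unfold perc
  refine map_inj _ (fun p : ZMod (2 * n) × ℕ => ((p.1 + a, p.2) : ZMod (2 * n) × ℕ)) ?_
  rintro ⟨x, t⟩ ⟨y, s⟩ h
  simp only [Prod.mk.injEq] at h ⊢
  exact ⟨add_right_cancel h.1, h.2⟩

theorem meas_sh (n : ℕ) (a : ZMod (2 * n)) : Measurable (sh n a) :=
  measurable_pi_lambda _ (fun _ => measurable_pi_apply _)

theorem meas_K {n : ℕ} (hn : 1 ≤ n) : Measurable (fun ω : Conf n => (bcl n ω).ncard) := by
  refine measurable_to_countable' fun k => ?_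
  have : (fun ω : Conf n => (bcl n ω).ncard) ⁻¹' {k} =
      {ω : Conf n | k ≤ (bcl n ω).ncard} \ {ω : Conf n | k + 1 ≤ (bcl n ω).ncard} := by
    ext ω
    simp only [Set.mem_preimage, Set.mem_singleton_iff, Set.mem_diff, Set.mem_setOf_eq]
    omega
  rw [this]
  exact (meas_bcl hn k).diff (meas_bcl hn (k + 1))

theorem mem_cla_iff {n : ℕ} (hn : 1 ≤ n) (ω : Conf n) {a b : ZMod (2 * n)} (ha : Even a.val) :
    b ∈ cla n ω a ↔ (Even b.val ∧ cla n ω b = cla n ω a) := by
  constructor
  · intro h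
    have h1 := P5.parity hn ω h
    simp only [add_zero] at h1
    rw [Nat.even_iff] at ha
    refine ⟨Nat.even_iff.2 (by omega), ?_⟩
    ext c
    exact ⟨fun hc => Relation.EqvGen.trans _ _ _ h hc,
      fun hc => Relation.EqvGen.trans _ _ _ (Relation.EqvGen.symm _ _ h) hc⟩
  · rintro ⟨_, h⟩
    rw [← h]
    exact Relation.EqvGen.refl _

open Classical in
/-- the even classes -/
noncomputable def ev (n : ℕ) [NeZero (2 * n)] : Finset (ZMod (2 * n)) :=
  Finset.univ.filter (fun a => Even a.val)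

theorem card_ev {n : ℕ} (hn : 1 ≤ n) [NeZero (2 * n)] : (ev n).card = n := by
  classical
  have h : ev n = (Finset.range n).image (fun k : ℕ => ((2 * k : ℕ) : ZMod (2 * n))) := by
    ext b
    unfold ev
    rw [Finset.mem_filter, Finset.mem_image]
    constructor
    · rintro ⟨_, h⟩
      obtain ⟨k, hk⟩ := h
      have h3 : b.val < 2 * n := ZMod.val_lt b
      refine ⟨k, Finset.mem_range.2 (by omega), ?_⟩
      rw [show 2 * k = b.val by omega]
      exact ZMod.natCast_zmod_val b
    · rintro ⟨k, hk, rfl⟩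
      refine ⟨Finset.mem_univ _, ?_⟩
      rw [ZMod.val_natCast, Nat.mod_eq_of_lt (by have := Finset.mem_range.1 hk; omega)]
      exact ⟨k, by ring⟩
  rw [h, Finset.card_image_of_injOn, Finset.card_range]
  intro i hi j hj hij
  have hi' := Finset.mem_range.1 hi
  have hj' := Finset.mem_range.1 hj
  have h1 : ((2 * i : ℕ) : ZMod (2 * n)).val = ((2 * j : ℕ) : ZMod (2 * n)).val := by
    simp only at hij
    rw [hij]
  rw [ZMod.val_natCast, ZMod.val_natCast, Nat.mod_eq_of_lt (by omega),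
    Nat.mod_eq_of_lt (by omega)] at h1
  omega

open Classical in
/-- the weight of a cluster with `k` boundary vertices -/
noncomputable def wt (S : Set ℕ) (k : ℕ) : ℝ := if k ∈ S then 1 / (k : ℝ) else 0

theorem num_eq {n : ℕ} (hn : 1 ≤ n) [NeZero (2 * n)] (S : Set ℕ) (ω : Conf n) :
    (num n S ω : ℝ) = ∑ a ∈ ev n, wt S (cla n ω a).ncard := by
  classical
  rw [Finset.sum_comp (fun C : Set (ZMod (2 * n)) => wt S C.ncard) (fun a => cla n ω a)]
  have h1 : ∀ C ∈ (ev n).image (fun a => cla n ω a),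
      ((ev n).filter (fun a => cla n ω a = C)).card • wt S C.ncard =
        if C.ncard ∈ S then (1 : ℝ) else 0 := by
    intro C hC
    obtain ⟨a, ha, rfl⟩ := Finset.mem_image.1 hC
    have ha' : Even a.val := (Finset.mem_filter.1 ha).2
    have h2 : (cla n ω a).ncard = ((ev n).filter (fun b => cla n ω b = cla n ω a)).card := by
      rw [← Set.ncard_coe_finset]
      congr 1
      ext b
      rw [mem_cla_iff hn ω ha', Finset.mem_coe, Finset.mem_filter]
      unfold ev
      rw [Finset.mem_filter]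
      simp
    have h3 : 0 < (cla n ω a).ncard :=
      (Set.ncard_pos (Set.toFinite _)).2 ⟨a, Relation.EqvGen.refl _⟩
    rw [← h2]
    unfold wt
    split_ifs
    · rw [nsmul_eq_mul]
      have : ((cla n ω a).ncard : ℝ) ≠ 0 := by positivity
      field_simp
    · simp
  rw [Finset.sum_congr rfl h1, Finset.sum_ite, Finset.sum_const_zero, add_zero, Finset.sum_const,
    nsmul_eq_mul, mul_one]
  congr 1
  unfold num
  rw [← Set.ncard_coe_finset]
  congr 1
  ext C
  simp only [Set.mem_setOf_eq, Finset.coe_filter, Finset.mem_image]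
  constructor
  · rintro ⟨a, ha, rfl, hC⟩
    exact ⟨⟨a, Finset.mem_filter.2 ⟨Finset.mem_univ _, ha⟩, rfl⟩, hC⟩
  · rintro ⟨⟨a, ha, rfl⟩, hC⟩
    exact ⟨a, (Finset.mem_filter.1 ha).2, rfl, hC⟩

theorem wt_bdd (S : Set ℕ) (k : ℕ) : |wt S k| ≤ 1 := by
  unfold wt
  split_ifs
  · rw [abs_of_nonneg (by positivity)]
    rcases Nat.eq_zero_or_pos k with h | h
    · rw [h]; norm_num
    · rw [div_le_one (by exact_mod_cast h)]
      exact_mod_cast h
  · norm_num

theorem wt_int {n : ℕ} (hn : 1 ≤ n) (S : Set ℕ) (a : ZMod (2 * n)) :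
    Integrable (fun ω => wt S (bcl n (sh n a ω)).ncard) (perc n) := by
  haveI : IsProbabilityMeasure (perc n) := by unfold perc; infer_instance
  refine Integrable.of_bound (C := 1) ?_ (Eventually.of_forall fun ω => ?_)
  · exact ((measurable_from_nat (f := wt S)).comp ((meas_K hn).comp (meas_sh n a))).aestronglyMeasurable
  · rw [Real.norm_eq_abs]
    exact wt_bdd S _

theorem wt_shift {n : ℕ} (hn : 1 ≤ n) (S : Set ℕ) (a : ZMod (2 * n)) :
    ∫ ω, wt S (bcl n (sh n a ω)).ncard ∂(perc n) = ∫ ω, wt S (bcl n ω).ncard ∂(perc n) := by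
  have h := integral_map (μ := perc n) (φ := sh n a) (meas_sh n a).aemeasurable
    (f := fun ω => wt S (bcl n ω).ncard)
    ((measurable_from_nat (f := wt S)).comp (meas_K hn)).aestronglyMeasurable
  rw [map_sh n hn a] at h
  exact h.symm

/-- mass transport -/
theorem mean_num {n : ℕ} (hn : 1 ≤ n) (S : Set ℕ) :
    ∫ ω, (num n S ω : ℝ) ∂(perc n) = n * ∫ ω, wt S (bcl n ω).ncard ∂(perc n) := by
  haveI : NeZero (2 * n) := ⟨by omega⟩
  have h1 : ∀ ω, (num n S ω : ℝ) = ∑ a ∈ ev n, wt S (bcl n (sh n a ω)).ncard := by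
    intro ω
    rw [num_eq hn S ω]
    refine Finset.sum_congr rfl fun a ha => ?_
    rw [ncard_cla hn (Finset.mem_filter.1 ha).2]
  simp only [h1]
  rw [integral_finset_sum _ (fun a _ => wt_int hn S a)]
  rw [Finset.sum_congr rfl (fun a _ => wt_shift hn S a), Finset.sum_const, card_ev hn, nsmul_eq_mul]

/-- the integral of the weight, as a sum -/
theorem int_wt {n : ℕ} (hn : 1 ≤ n) (f : ℕ → ℝ) :
    ∫ ω, f (bcl n ω).ncard ∂(perc n) =
      ∑ k ∈ Finset.Icc 1 n, (perc n).real {ω | (bcl n ω).ncard = k} * f k := by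
  haveI : IsProbabilityMeasure (perc n) := by unfold perc; infer_instance
  have h1 : ∀ ω, f (bcl n ω).ncard = ∑ k ∈ Finset.Icc 1 n,
      ({ω : Conf n | (bcl n ω).ncard = k}.indicator (fun _ => f k) ω) := by
    intro ω
    rw [Finset.sum_eq_single (bcl n ω).ncard]
    · rw [Set.indicator_of_mem]
      rfl
    · intro b _ hb
      rw [Set.indicator_of_notMem]
      intro h
      exact hb h.symm
    · intro h
      exact absurd (Finset.mem_Icc.2 ⟨one_le_ncard hn ω, ncard_le hn ω⟩) h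
  simp only [h1]
  have hm : ∀ k, MeasurableSet {ω : Conf n | (bcl n ω).ncard = k} := fun k =>
    (meas_K hn) (measurableSet_singleton k)
  rw [integral_finset_sum]
  · refine Finset.sum_congr rfl fun k hk => ?_
    rw [integral_indicator_const _ (hm k), smul_eq_mul]
  · intro k _
    exact (integrable_const _).indicator (hm k)

/-- the exact law -/
theorem law_eq {n k : ℕ} (h1 : 1 ≤ k) (hk : k ≤ n) :
    (perc n).real {ω | (bcl n ω).ncard = k} = tl n k - tl n (k + 1) := by
  haveI : IsProbabilityMeasure (perc n) := by unfold perc; infer_instance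
  have hn : 1 ≤ n := h1.trans hk
  have e : {ω : Conf n | (bcl n ω).ncard = k} =
      {ω : Conf n | k ≤ (bcl n ω).ncard} \ {ω : Conf n | k + 1 ≤ (bcl n ω).ncard} := by
    ext ω
    simp only [Set.mem_diff, Set.mem_setOf_eq]
    omega
  rw [e, measureReal_diff (by intro ω h; simp only [Set.mem_setOf_eq] at h ⊢; omega)
    (meas_bcl hn (k + 1)), exact_law hn hk]
  congr 1
  rcases Nat.lt_or_ge n (k + 1) with h | h
  · rw [tl_gt h]
    have : {ω : Conf n | k + 1 ≤ (bcl n ω).ncard} = ∅ := by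
      ext ω
      simp only [Set.mem_setOf_eq, Set.mem_empty_iff_false, iff_false, not_le]
      have := ncard_le hn ω
      omega
    rw [this, measureReal_empty]
  · exact exact_law hn h

end Pool.Agent.V11321.BC
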