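import Pool.Agent.V11321.BC.Cnt

/-!
The local limit theorem, and the limit of the mean number of the boundary clusters with at least
`x n^(2/3)` boundary vertices.
-/

set_option autoImplicit false

namespace Pool.Agent.V11321.BC

open MeasureTheory Filter Topology H731B

/-- the probabilities in closed form -/
theorem diff_tl {n k : ℕ} (h1 : 1 ≤ k) (hk : k ≤ n) : tl n k - tl n (k + 1) =
    hc n k * (3 * k * (2 * (n : ℝ)^2 + 3 * (k : ℝ)^3 - k)) /
      (((k : ℝ) + 1) * (4 * (n : ℝ)^2 - (k : ℝ)^2)) := by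
  have hk' : (k : ℝ) ≤ n := by exact_mod_cast hk
  have hk1 : (1 : ℝ) ≤ k := by exact_mod_cast h1
  have h2 : (0 : ℝ) < 4 * (n : ℝ)^2 - (k : ℝ)^2 := by nlinarith
  unfold tl
  rw [show hc n (k + 1) = hc n k * (2 * (2 * (k : ℝ) - 1) * ((n : ℝ)^2 - (k : ℝ)^2)) /
      (((k : ℝ) + 1) * (4 * (n : ℝ)^2 - (k : ℝ)^2)) from rfl]
  push_cast
  obtain ⟨D, hD⟩ : ∃ D : ℝ, D = 4 * (n : ℝ)^2 - (k : ℝ)^2 := ⟨_, rfl⟩
  rw [← hD] at h2 ⊢
  have h4 : D ≠ 0 := h2.ne'
  have h5 : (k : ℝ) + 1 ≠ 0 := by positivity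
  rw [eq_div_iff (by positivity), sub_mul]
  have e : (3 * ((k : ℝ) + 1) - 1) * (hc n k * (2 * (2 * (k : ℝ) - 1) * ((n : ℝ)^2 - (k : ℝ)^2)) /
      (((k : ℝ) + 1) * D)) * (((k : ℝ) + 1) * D) =
      (3 * ((k : ℝ) + 1) - 1) * (hc n k * (2 * (2 * (k : ℝ) - 1) * ((n : ℝ)^2 - (k : ℝ)^2))) := by
    field_simp
  rw [e, hD]
  ring

/-- the closed form -/
theorem hc_form {n k : ℕ} (h1 : 1 ≤ k) (hk : k ≤ n) : hc n k =
    ((2 * k).choose k : ℝ) / (2 * (2 * k - 1)) *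
      (((n + k - 1).factorial : ℝ) * (2 * n - k).factorial) /
        (((n - k).factorial : ℝ) * (2 * n + k - 1).factorial) := by
  have h := tl_closed h1 hk
  have hk1 : (1 : ℝ) ≤ k := by exact_mod_cast h1
  unfold tl at h
  have h3 : (3 * (k : ℝ) - 1) ≠ 0 := by linarith
  apply mul_left_cancel₀ h3
  rw [h]
  have h4 : (2 * (k : ℝ) - 1) ≠ 0 := by linarith
  have h5 : ((n - k).factorial : ℝ) ≠ 0 := by positivity
  have h6 : ((2 * n + k - 1).factorial : ℝ) ≠ 0 := by positivity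
  field_simp

/-- the local limit theorem -/
theorem loc (x : ℝ) (hx : 0 < x) (k : ℕ → ℕ)
    (hk : Tendsto (fun n : ℕ => (k n : ℝ) / (n : ℝ)^((2:ℝ)/3)) atTop (𝓝 x)) :
    Tendsto (fun n : ℕ => (n : ℝ) * (perc n).real {ω | (bcl n ω).ncard = k n}) atTop
      (𝓝 (3 / (8 * Real.sqrt Real.pi) * (2 + 3 * x^3) / (x * Real.sqrt x) *
        Real.exp (-(x^3 / 4)))) := by
  have hr : Tendsto (fun n : ℕ => (n : ℝ)^((2:ℝ)/3)) atTop atTop := F2.rpow_top (by norm_num)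
  have hkR : Tendsto (fun n : ℕ => (k n : ℝ)) atTop atTop := by
    have h := hk.pos_mul_atTop hx hr
    refine h.congr' ?_
    filter_upwards [eventually_ge_atTop 1] with n hn
    have hn0 : (0:ℝ) < n := by exact_mod_cast hn
    have : (n : ℝ)^((2:ℝ)/3) ≠ 0 := (Real.rpow_pos_of_pos hn0 _).ne'
    field_simp
  have hkN : Tendsto k atTop atTop := tendsto_natCast_atTop_iff.1 hkR
  have h1 := tl_tendsto x hx.le k hkN hk
  -- the factors
  have f1 : Tendsto (fun n : ℕ => (((k n : ℝ) / (n : ℝ)^((2:ℝ)/3)) *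
      Real.sqrt ((k n : ℝ) / (n : ℝ)^((2:ℝ)/3)))⁻¹) atTop (𝓝 (x * Real.sqrt x)⁻¹) :=
    (hk.mul hk.sqrt).inv₀ (by positivity)
  have hinv : Tendsto (fun n : ℕ => 1 / (k n : ℝ)) atTop (𝓝 0) :=
    tendsto_const_nhds.div_atTop hkR
  have f2 : Tendsto (fun n : ℕ => 3 / ((3 - 1 / (k n : ℝ)) * (1 + 1 / (k n : ℝ)))) atTop
      (𝓝 (3 / ((3 - 0) * (1 + 0)))) :=
    tendsto_const_nhds.div ((tendsto_const_nhds.sub hinv).mul (tendsto_const_nhds.add hinv))
      (by norm_num)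
  have hninv : Tendsto (fun n : ℕ => 1 / (n : ℝ)) atTop (𝓝 0) :=
    tendsto_const_nhds.div_atTop tendsto_natCast_atTop_atTop
  have hkn : Tendsto (fun n : ℕ => (k n : ℝ) / (n : ℝ)) atTop (𝓝 0) := by
    have h2 : Tendsto (fun n : ℕ => ((k n : ℝ) / (n : ℝ)^((2:ℝ)/3)) * (1 / (n : ℝ)^((1:ℝ)/3))) atTop
        (𝓝 (x * 0)) :=
      hk.mul (tendsto_const_nhds.div_atTop (F2.rpow_top (by norm_num)))
    rw [mul_zero] at h2
    refine h2.congr' ?_
    filter_upwards [eventually_ge_atTop 1] with n hn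
    have hn0 : (0:ℝ) < n := by exact_mod_cast hn
    have e : (n : ℝ)^((2:ℝ)/3) * (n : ℝ)^((1:ℝ)/3) = n := by
      rw [← Real.rpow_add hn0]; norm_num
    rw [div_mul_div_comm, mul_one, e]
  have f3 : Tendsto (fun n : ℕ => (2 + 3 * ((k n : ℝ) / (n : ℝ)^((2:ℝ)/3))^3 -
      (k n : ℝ) / (n : ℝ) * (1 / (n : ℝ))) / (4 - ((k n : ℝ) / (n : ℝ))^2)) atTop
      (𝓝 ((2 + 3 * x^3 - 0 * 0) / (4 - 0^2))) :=
    (((tendsto_const_nhds.add ((hk.pow 3).const_mul 3)).sub (hkn.mul hninv))).div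
      (tendsto_const_nhds.sub (hkn.pow 2)) (by norm_num)
  have h2 := ((h1.mul f1).mul f2).mul f3
  have e : 3 / (2 * Real.sqrt Real.pi) * Real.exp (-(x ^ 3 / 4)) * (x * Real.sqrt x)⁻¹ *
      (3 / ((3 - 0) * (1 + 0))) * ((2 + 3 * x^3 - 0 * 0) / (4 - 0^2)) =
      3 / (8 * Real.sqrt Real.pi) * (2 + 3 * x^3) / (x * Real.sqrt x) *
        Real.exp (-(x^3 / 4)) := by
    have h3 : 0 < Real.sqrt Real.pi := Real.sqrt_pos.2 Real.pi_pos
    have h4 : 0 < Real.sqrt x := Real.sqrt_pos.2 hx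
    field_simp
    ring
  rw [e] at h2
  refine h2.congr' ?_
  filter_upwards [eventually_ge_atTop 1, F2.ev_le x k hk, hkN.eventually_ge_atTop 1]
    with n hn hkn' hk1
  have hn0 : (0:ℝ) < n := by exact_mod_cast hn
  have hk0 : (0:ℝ) < k n := by exact_mod_cast hk1
  have hk1' : (1:ℝ) ≤ k n := by exact_mod_cast hk1
  have hkn'' : (k n : ℝ) ≤ n := by exact_mod_cast hkn'
  rw [law_eq hk1 hkn', diff_tl hk1 hkn']
  obtain ⟨ρ, hρ⟩ : ∃ ρ : ℝ, ρ = (n : ℝ)^((1:ℝ)/3) := ⟨_, rfl⟩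
  have hρ0 : 0 < ρ := by rw [hρ]; exact Real.rpow_pos_of_pos hn0 _
  have e3 : (n : ℝ) = ρ^3 := by
    rw [hρ, ← Real.rpow_natCast, ← Real.rpow_mul hn0.le]
    norm_num
  have e2 : (n : ℝ)^((2:ℝ)/3) = ρ^2 := by
    rw [hρ, ← Real.rpow_natCast, ← Real.rpow_mul hn0.le]
    norm_num
  have e4 : Real.sqrt ((k n : ℝ) / ρ^2) = Real.sqrt (k n) / ρ := by
    rw [Real.sqrt_div hk0.le, Real.sqrt_sq hρ0.le]
  have hs : 0 < Real.sqrt (k n : ℝ) := Real.sqrt_pos.2 hk0
  rw [e2, e4]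
  unfold tl
  rw [e3]
  rw [e3] at hkn''
  have h5 : (3 * (k n : ℝ) - 1) ≠ 0 := by linarith
  have h6 : (0:ℝ) < 4 * (ρ^3)^2 - (k n : ℝ)^2 := by nlinarith [pow_pos hρ0 3]
  have h7 : (3 - 1 / (k n : ℝ)) = (3 * (k n : ℝ) - 1) / k n := by field_simp
  have h8 : (4 - ((k n : ℝ) / ρ^3)^2) = (4 * (ρ^3)^2 - (k n : ℝ)^2) / (ρ^3)^2 := by field_simp
  have h9 : (1 + 1 / (k n : ℝ)) = ((k n : ℝ) + 1) / k n := by field_simp
  rw [h7, h8, h9]
  have h10 : (k n : ℝ) + 1 ≠ 0 := by positivity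
  obtain ⟨D, hD⟩ : ∃ D : ℝ, D = 4 * (ρ^3)^2 - (k n : ℝ)^2 := ⟨_, rfl⟩
  rw [← hD] at h6 ⊢
  obtain ⟨T, hT⟩ : ∃ T : ℝ, T = 3 * (k n : ℝ) - 1 := ⟨_, rfl⟩
  rw [← hT] at h5 ⊢
  have h11 : D ≠ 0 := h6.ne'
  field_simp

/-- the limit tail -/
noncomputable def gt (y : ℝ) : ℝ :=
  3 / (2 * Real.sqrt Real.pi) * y^(-(1:ℝ)/2) * Real.exp (-(y^3 / 4))

/-- the rescaled tail -/
noncomputable def Gn (n : ℕ) (y : ℝ) : ℝ := (n : ℝ)^((1:ℝ)/3) *
  (perc n).real {ω | y * (n : ℝ)^((2:ℝ)/3) ≤ ((bcl n ω).ncard : ℝ)}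

theorem Gn_tendsto (y : ℝ) (hy : 0 < y) : Tendsto (fun n => Gn n y) atTop (𝓝 (gt y)) :=
  H731B.main.2.1 y hy

theorem Gn_anti (n : ℕ) {x y : ℝ} (h : x ≤ y) : Gn n y ≤ Gn n x := by
  haveI : IsProbabilityMeasure (perc n) := by unfold perc; infer_instance
  unfold Gn
  refine mul_le_mul_of_nonneg_left (measureReal_mono ?_ (measure_ne_top _ _)) (by positivity)
  intro ω hω
  simp only [Set.mem_setOf_eq] at hω ⊢
  refine le_trans (mul_le_mul_of_nonneg_right h (by positivity)) hω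

theorem Gn_nonneg (n : ℕ) (y : ℝ) : 0 ≤ Gn n y := by
  unfold Gn
  positivity

/-- the probability of a cluster with `k` boundary vertices -/
noncomputable def pk (n k : ℕ) : ℝ := (perc n).real {ω | (bcl n ω).ncard = k}

open Classical in
theorem Gn_sum {n : ℕ} (hn : 1 ≤ n) (y : ℝ) : Gn n y = (n : ℝ)^((1:ℝ)/3) *
    ∑ k ∈ Finset.Icc 1 n, pk n k * (if y * (n : ℝ)^((2:ℝ)/3) ≤ (k : ℝ) then 1 else 0) := by
  haveI : IsProbabilityMeasure (perc n) := by unfold perc; infer_instance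
  unfold Gn pk
  rw [← int_wt hn (fun k : ℕ => if y * (n : ℝ)^((2:ℝ)/3) ≤ (k : ℝ) then (1:ℝ) else 0)]
  congr 1
  have hm : MeasurableSet {ω : Conf n | y * (n : ℝ)^((2:ℝ)/3) ≤ ((bcl n ω).ncard : ℝ)} :=
    (meas_K hn) (measurableSet_setOf.2 (measurable_of_countable _) :
      MeasurableSet {k : ℕ | y * (n : ℝ)^((2:ℝ)/3) ≤ (k : ℝ)})
  have h := integral_indicator_const (μ := perc n) (1 : ℝ) hm
  rw [smul_eq_mul, mul_one] at h
  rw [← h]
  refine integral_congr_ae (Eventually.of_forall fun ω => ?_)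
  simp only [Set.indicator_apply, Set.mem_setOf_eq]

/-- the elementary identity -/
theorem elem {x r c : ℝ} (hx : 0 < x) (hr : 0 < r) (hc : 0 < c) :
    (if x * r ≤ c then r / c else 0) = (if x * r ≤ c then (1:ℝ) else 0) / x -
      ∫ y in Set.Ioi x, (if y * r ≤ c then (1:ℝ) else 0) * (y^2)⁻¹ := by
  by_cases h : x * r ≤ c
  · rw [if_pos h, if_pos h]
    have hxc : x ≤ c / r := by rwa [le_div_iff₀ hr]
    have e1 : ∫ y in Set.Ioi x, (if y * r ≤ c then (1:ℝ) else 0) * (y^2)⁻¹ =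
        ∫ y in Set.Ioc x (c / r), (y^2)⁻¹ := by
      have e2 : Set.Ioc x (c / r) = Set.Ioi x ∩ Set.Iic (c / r) := rfl
      rw [e2, ← setIntegral_indicator measurableSet_Iic]
      refine setIntegral_congr_fun measurableSet_Ioi fun y _ => ?_
      simp only [Set.indicator_apply, Set.mem_Iic, le_div_iff₀ hr]
      split_ifs <;> simp
    rw [e1, ← intervalIntegral.integral_of_le hxc]
    have e3 : ∫ y in x..(c / r), (y^2)⁻¹ = - (c / r)⁻¹ - (- x⁻¹) := by
      refine intervalIntegral.integral_eq_sub_of_hasDerivAt (f := fun y => - y⁻¹) ?_ ?_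
      · intro y hy
        rw [Set.uIcc_of_le hxc] at hy
        have hy0 : y ≠ 0 := (hx.trans_le hy.1).ne'
        exact ((hasDerivAt_inv hy0).fun_neg).congr_deriv (by simp)
      · refine ContinuousOn.intervalIntegrable ?_
        rw [Set.uIcc_of_le hxc]
        intro y hy
        have hy0 : y ≠ 0 := (hx.trans_le hy.1).ne'
        exact ((continuous_pow 2).continuousAt.inv₀ (by positivity)).continuousWithinAt
    rw [e3]
    field_simp
    ring
  · rw [if_neg h, if_neg h]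
    have e1 : ∫ y in Set.Ioi x, (if y * r ≤ c then (1:ℝ) else 0) * (y^2)⁻¹ = 0 := by
      refine (setIntegral_congr_fun (g := fun _ => (0:ℝ)) measurableSet_Ioi fun y hy => ?_).trans
        (by simp)
      have hy' : x < y := hy
      have h3 : ¬ (y * r ≤ c) := fun h4 => h (le_trans (mul_le_mul_of_nonneg_right hy'.le hr.le) h4)
      simp only [if_neg h3, zero_mul]
    rw [e1]
    simp

theorem int_sq {x : ℝ} (hx : 0 < x) : IntegrableOn (fun y : ℝ => (y^2)⁻¹) (Set.Ioi x) := by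
  have h := integrableOn_Ioi_rpow_of_lt (a := -2) (by norm_num) hx
  refine h.congr_fun (fun y hy => ?_) measurableSet_Ioi
  have hy' : (0:ℝ) < y := hx.trans hy
  simp only
  rw [Real.rpow_neg hy'.le]
  norm_num

/-- the mean number of large clusters, exact form -/
theorem mean_eq {n : ℕ} (hn : 1 ≤ n) {x : ℝ} (hx : 0 < x) :
    ∫ ω, (num n {k : ℕ | x * (n : ℝ)^((2:ℝ)/3) ≤ (k : ℝ)} ω : ℝ) ∂(perc n) =
      Gn n x / x - ∫ y in Set.Ioi x, Gn n y * (y^2)⁻¹ := by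
  classical
  have hn0 : (0:ℝ) < n := by exact_mod_cast hn
  have hr0 : 0 < (n : ℝ)^((2:ℝ)/3) := Real.rpow_pos_of_pos hn0 _
  rw [mean_num hn, int_wt hn]
  have h1 : ∫ y in Set.Ioi x, Gn n y * (y^2)⁻¹ = (n : ℝ)^((1:ℝ)/3) * ∑ k ∈ Finset.Icc 1 n,
      pk n k * ∫ y in Set.Ioi x, (if y * (n : ℝ)^((2:ℝ)/3) ≤ (k : ℝ) then (1:ℝ) else 0) * (y^2)⁻¹ := by
    have e : ∀ y, Gn n y * (y^2)⁻¹ = (n : ℝ)^((1:ℝ)/3) * ∑ k ∈ Finset.Icc 1 n,
        pk n k * ((if y * (n : ℝ)^((2:ℝ)/3) ≤ (k : ℝ) then (1:ℝ) else 0) * (y^2)⁻¹) := by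
      intro y
      rw [Gn_sum hn, mul_assoc, Finset.sum_mul]
      congr 1
      exact Finset.sum_congr rfl fun k _ => mul_assoc _ _ _
    simp only [e]
    rw [integral_const_mul, integral_finsetSum]
    · congr 1
      exact Finset.sum_congr rfl fun k _ => integral_const_mul _ _
    · intro k _
      apply Integrable.const_mul
      refine (int_sq hx).mono' ?_ (Eventually.of_forall fun y => ?_)
      · refine Measurable.aestronglyMeasurable ?_
        refine Measurable.mul ?_ ((measurable_id.pow_const 2).inv)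
        exact Measurable.ite (measurableSet_le (measurable_id.mul_const _) measurable_const)
          measurable_const measurable_const
      · rw [norm_mul, Real.norm_eq_abs, Real.norm_eq_abs, abs_of_nonneg (inv_nonneg.2 (sq_nonneg y))]
        split_ifs
        · simp
        · simp [sq_nonneg y]
  rw [h1, Gn_sum hn, mul_div_assoc, ← mul_sub, Finset.sum_div, ← Finset.sum_sub_distrib]
  have e13 : (n : ℝ)^((1:ℝ)/3) * (n : ℝ)^((2:ℝ)/3) = n := by
    rw [← Real.rpow_add hn0]; norm_num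
  have e14 : ∀ X : ℝ, (n : ℝ) * X = (n : ℝ)^((1:ℝ)/3) * ((n : ℝ)^((2:ℝ)/3) * X) := by
    intro X
    rw [← mul_assoc, e13]
  rw [e14, Finset.mul_sum]
  congr 1
  refine Finset.sum_congr rfl fun k hk => ?_
  have hk0 : (0:ℝ) < (k : ℝ) := by exact_mod_cast (Finset.mem_Icc.1 hk).1
  have h2 := elem (c := (k : ℝ)) hx hr0 hk0
  have h3 : pk n k * (if x * (n : ℝ)^((2:ℝ)/3) ≤ (k : ℝ) then (1:ℝ) else 0) / x -
      pk n k * ∫ y in Set.Ioi x, (if y * (n : ℝ)^((2:ℝ)/3) ≤ (k : ℝ) then (1:ℝ) else 0) * (y^2)⁻¹ =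
      pk n k * (if x * (n : ℝ)^((2:ℝ)/3) ≤ (k : ℝ) then (n : ℝ)^((2:ℝ)/3) / k else 0) := by
    rw [h2]; ring
  rw [h3]
  unfold wt pk
  simp only [Set.mem_setOf_eq]
  split_ifs
  · ring
  · ring

/-- the limit -/
theorem mean_lim {x : ℝ} (hx : 0 < x) :
    Tendsto (fun n : ℕ => ∫ ω, (num n {k : ℕ | x * (n : ℝ)^((2:ℝ)/3) ≤ (k : ℝ)} ω : ℝ) ∂(perc n))
      atTop (𝓝 (gt x / x - ∫ y in Set.Ioi x, gt y * (y^2)⁻¹)) := by
  have h1 : Tendsto (fun n : ℕ => Gn n x / x - ∫ y in Set.Ioi x, Gn n y * (y^2)⁻¹) atTop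
      (𝓝 (gt x / x - ∫ y in Set.Ioi x, gt y * (y^2)⁻¹)) := by
    refine ((Gn_tendsto x hx).div_const x).sub ?_
    refine tendsto_integral_filter_of_dominated_convergence
      (fun y => (gt x + 1) * (y^2)⁻¹) ?_ ?_ ((int_sq hx).const_mul _) ?_
    · refine Eventually.of_forall fun n => ?_
      refine Measurable.aestronglyMeasurable ?_
      refine Measurable.mul ?_ ((measurable_id.pow_const 2).inv)
      have : Antitone (Gn n) := fun a b h => Gn_anti n h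
      exact this.measurable
    · have h2 : ∀ᶠ n in atTop, Gn n x < gt x + 1 :=
        (Gn_tendsto x hx).eventually (gt_mem_nhds (by linarith))
      filter_upwards [h2] with n hn
      rw [ae_restrict_iff' measurableSet_Ioi]
      refine Eventually.of_forall fun y hy => ?_
      rw [norm_mul, Real.norm_eq_abs, Real.norm_eq_abs, abs_of_nonneg (inv_nonneg.2 (sq_nonneg y)),
        abs_of_nonneg (Gn_nonneg n y)]
      exact mul_le_mul_of_nonneg_right ((Gn_anti n (le_of_lt hy)).trans hn.le)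
        (inv_nonneg.2 (sq_nonneg y))
    · rw [ae_restrict_iff' measurableSet_Ioi]
      refine Eventually.of_forall fun y hy => ?_
      exact (Gn_tendsto y (hx.trans hy)).mul_const _
  refine h1.congr' ?_
  filter_upwards [eventually_ge_atTop 1] with n hn
  exact (mean_eq hn hx).symm

/-- the closed form of the limit -/
theorem lim_form {x : ℝ} (hx : 0 < x) : gt x / x - ∫ y in Set.Ioi x, gt y * (y^2)⁻¹ =
    Real.exp (-(x^3 / 4)) / (2 * Real.sqrt Real.pi * (x * Real.sqrt x)) +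
      3 / (4 * Real.sqrt Real.pi) * ∫ y in Set.Ioi x, Real.sqrt y * Real.exp (-(y^3 / 4)) := by
  have hE : IntegrableOn (fun y : ℝ => Real.sqrt y * Real.exp (-(y^3 / 4))) (Set.Ioi x) := by
    have h := integrableOn_rpow_mul_exp_neg_mul_rpow (s := (1/2 : ℝ)) (p := 3) (b := 1/4)
      (by norm_num) (by norm_num) (by norm_num)
    refine (h.mono_set (Set.Ioi_subset_Ioi hx.le)).congr_fun (fun y hy => ?_) measurableSet_Ioi
    have hy0 : (0:ℝ) < y := hx.trans hy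
    simp only
    rw [Real.sqrt_eq_rpow]
    congr 2
    have : y ^ (3 : ℝ) = y^3 := by
      rw [← Real.rpow_natCast]
      norm_num
    rw [this]
    ring
  have hF : IntegrableOn (fun y : ℝ => (y^2 * Real.sqrt y)⁻¹ * Real.exp (-(y^3 / 4))) (Set.Ioi x) := by
    refine Integrable.mono' ((int_sq hx).const_mul (Real.sqrt x)⁻¹) ?_ ?_
    · refine Measurable.aestronglyMeasurable ?_
      fun_prop
    · rw [ae_restrict_iff' measurableSet_Ioi]
      refine Eventually.of_forall fun y hy => ?_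
      have hy' : x < y := hy
      have hy0 : (0:ℝ) < y := hx.trans hy
      have hs : 0 < Real.sqrt x := Real.sqrt_pos.2 hx
      rw [Real.norm_eq_abs, abs_of_nonneg (by positivity)]
      have h1 : Real.exp (-(y^3 / 4)) ≤ 1 := Real.exp_le_one_iff.2 (by
        have : 0 < y^3 := by positivity
        linarith)
      have h2 : (y^2 * Real.sqrt y)⁻¹ ≤ (Real.sqrt x)⁻¹ * (y^2)⁻¹ := by
        rw [mul_inv, mul_comm]
        exact mul_le_mul_of_nonneg_right (inv_anti₀ hs (Real.sqrt_le_sqrt hy'.le)) (by positivity)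
      calc (y^2 * Real.sqrt y)⁻¹ * Real.exp (-(y^3 / 4)) ≤ (y^2 * Real.sqrt y)⁻¹ * 1 :=
            mul_le_mul_of_nonneg_left h1 (by positivity)
        _ ≤ _ := by rw [mul_one]; exact h2
  have key : ∫ y in Set.Ioi x, ((y^2 * Real.sqrt y)⁻¹ * Real.exp (-(y^3 / 4)) +
      1 / 2 * (Real.sqrt y * Real.exp (-(y^3 / 4)))) = 0 - (-(2 / 3) * ((x * Real.sqrt x)⁻¹ *
        Real.exp (-(x^3 / 4)))) := by
    refine integral_Ioi_of_hasDerivAt_of_tendsto
      (f := fun y => -(2 / 3) * ((y * Real.sqrt y)⁻¹ * Real.exp (-(y^3 / 4)))) ?_ ?_ ?_ ?_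
    · refine ContinuousAt.continuousWithinAt ?_
      have : x * Real.sqrt x ≠ 0 := by positivity
      fun_prop (disch := exact this)
    · intro y hy
      have hy0 : (0:ℝ) < y := hx.trans hy
      have hs : 0 < Real.sqrt y := Real.sqrt_pos.2 hy0
      have h1 : HasDerivAt (fun y : ℝ => y * Real.sqrt y) (1 * Real.sqrt y + y * (1 / (2 * Real.sqrt y))) y :=
        (hasDerivAt_id y).mul (Real.hasDerivAt_sqrt hy0.ne')
      have h2 := h1.inv (by positivity)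
      have h3 : HasDerivAt (fun y : ℝ => Real.exp (-(y^3 / 4)))
          (Real.exp (-(y^3 / 4)) * (-((3 * y^2) / 4))) y := by
        have := (((hasDerivAt_pow 3 y).div_const 4).neg).exp
        simpa using this
      have h4 := (h2.mul h3).const_mul (-(2 / 3))
      refine h4.congr_deriv ?_
      simp only [Pi.inv_apply]
      have hsq : Real.sqrt y ^ 2 = y := Real.sq_sqrt hy0.le
      obtain ⟨s, hs'⟩ : ∃ s, s = Real.sqrt y := ⟨_, rfl⟩
      rw [← hs'] at hsq hs ⊢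
      rw [← hsq]
      field_simp
      ring
    · exact (hF.add (hE.const_mul (1/2)))
    · have h1 : Tendsto (fun y : ℝ => (y * Real.sqrt y)⁻¹) atTop (𝓝 0) := by
        refine tendsto_inv_atTop_zero.comp ?_
        exact tendsto_id.atTop_mul_atTop₀ Real.tendsto_sqrt_atTop
      have h2 : Tendsto (fun y : ℝ => (y * Real.sqrt y)⁻¹ * Real.exp (-(y^3 / 4))) atTop (𝓝 0) := by
        refine squeeze_zero' ?_ ?_ h1
        · filter_upwards [eventually_gt_atTop 0] with y hy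
          positivity
        · filter_upwards [eventually_gt_atTop 0] with y hy
          have h1 : Real.exp (-(y^3 / 4)) ≤ 1 := Real.exp_le_one_iff.2 (by
            have : 0 < y^3 := by positivity
            linarith)
          calc _ ≤ (y * Real.sqrt y)⁻¹ * 1 := mul_le_mul_of_nonneg_left h1 (by positivity)
            _ = _ := mul_one _
      have h3 := h2.const_mul (-(2 / 3))
      rwa [mul_zero] at h3
  have hadd : ∫ y in Set.Ioi x, ((y^2 * Real.sqrt y)⁻¹ * Real.exp (-(y^3 / 4)) +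
      1 / 2 * (Real.sqrt y * Real.exp (-(y^3 / 4)))) =
      (∫ y in Set.Ioi x, (y^2 * Real.sqrt y)⁻¹ * Real.exp (-(y^3 / 4))) +
      1 / 2 * ∫ y in Set.Ioi x, Real.sqrt y * Real.exp (-(y^3 / 4)) := by
    rw [← integral_const_mul]
    exact integral_add hF (hE.const_mul (1/2))
  have hgt : ∀ y, 0 < y → gt y = 3 / (2 * Real.sqrt Real.pi) * ((Real.sqrt y)⁻¹ *
      Real.exp (-(y^3 / 4))) := by
    intro y hy
    unfold gt
    have : y^(-(1:ℝ)/2) = (Real.sqrt y)⁻¹ := by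
      rw [Real.sqrt_eq_rpow, ← Real.rpow_neg hy.le]
      norm_num
    rw [this]
    ring
  have h5 : ∫ y in Set.Ioi x, gt y * (y^2)⁻¹ = 3 / (2 * Real.sqrt Real.pi) *
      ∫ y in Set.Ioi x, (y^2 * Real.sqrt y)⁻¹ * Real.exp (-(y^3 / 4)) := by
    rw [← integral_const_mul]
    refine setIntegral_congr_fun measurableSet_Ioi fun y hy => ?_
    have hy0 : (0:ℝ) < y := hx.trans hy
    rw [hgt y hy0, mul_inv]
    ring
  rw [hadd] at key
  have h6 : ∫ y in Set.Ioi x, (y^2 * Real.sqrt y)⁻¹ * Real.exp (-(y^3 / 4)) =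
      2 / 3 * ((x * Real.sqrt x)⁻¹ * Real.exp (-(x^3 / 4))) -
      1 / 2 * ∫ y in Set.Ioi x, Real.sqrt y * Real.exp (-(y^3 / 4)) := by
    linarith
  rw [h5, h6, hgt x hx]
  have h7 : 0 < Real.sqrt Real.pi := Real.sqrt_pos.2 Real.pi_pos
  have h8 : 0 < Real.sqrt x := Real.sqrt_pos.2 hx
  field_simp
  ring

end Pool.Agent.V11321.BC
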